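import Pool.Agent.H55.Cube.Scale

/-!
# Certificates
-/

open MeasureTheory Set

namespace Pool.Agent.H55.Cube

/-- look up a vertex in a table -/
def look : List ((ℤ × ℤ) × V3) → ℤ × ℤ → V3
  | [], _ => (0, 0, 0)
  | (q, v) :: t, p => if q.1 = p.1 ∧ q.2 = p.2 then v else look t p

/-- the test for a cell -/
def okCell (g : ℤ × ℤ → V3) (s : ℕ) (p : ℤ × ℤ) : Bool :=
  decide (g (cE p) - g p ∈ units) && decide (g (cN p) - g p ∈ units) &&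
  decide (g (cN p) - g p ≠ g (cE p) - g p) && decide (g (cN p) - g p ≠ -(g (cE p) - g p)) &&
  decide (g (cNE p) = g (cE p) + g (cN p) - g p) && decide (key g p ∈ keys s)

/-- the whole test -/
def okCert (G : List ((ℤ × ℤ) × V3)) (L : List (ℤ × ℤ)) (s : ℕ) : Bool :=
  L.all (okCell (look G) s) && decide ((L.map (key (look G))).Nodup) &&
  (keys s).all (fun k => (L.map (key (look G))).any (fun k' => decide (k' = k))) &&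
  conn L

theorem folds_of_cert (G : List ((ℤ × ℤ) × V3)) (L : List (ℤ × ℤ)) (s : ℕ) (hs : 0 < s)
    (h : okCert G L s = true) :
    FoldsInto (region L.toFinset) (cubeSurface s) ∧
    IsPolyominoOfArea (region L.toFinset) L.length := by
  simp only [okCert, Bool.and_eq_true, List.all_eq_true, decide_eq_true_eq, List.any_eq_true]
    at h
  obtain ⟨⟨⟨h1, h2⟩, h3⟩, h4⟩ := h
  have hL : L.Nodup := h2.of_map _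
  refine ⟨foldsInto_of (look G) L.toFinset s hs ?_ ?_ ?_ ?_, L.toFinset,
    List.toFinset_card_of_nodup hL, rfl, isConnected_interior L h4⟩
  · intro p hp
    have := h1 p (List.mem_toFinset.1 hp)
    simp only [okCell, Bool.and_eq_true, decide_eq_true_eq] at this
    obtain ⟨⟨⟨⟨⟨a1, a2⟩, a3⟩, a4⟩, a5⟩, a6⟩ := this
    exact ⟨a1, a2, a3, a4, a5⟩
  · intro p hp
    have := h1 p (List.mem_toFinset.1 hp)
    simp only [okCell, Bool.and_eq_true, decide_eq_true_eq] at this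
    exact this.2
  · intro p hp q hq hpq
    exact List.inj_on_of_nodup_map h2 (List.mem_toFinset.1 hp) (List.mem_toFinset.1 hq) hpq
  · intro k hk
    obtain ⟨k', hk', rfl⟩ := h3 k hk
    obtain ⟨p, hp, rfl⟩ := List.mem_map.1 hk'
    exact ⟨p, List.mem_toFinset.2 hp, rfl⟩

def Lc5 : List (ℤ × ℤ) :=
  [(13, 0), (13, 1), (12, 1), (14, 5), (12, 2), (13, 5), (9, 0), (10, 1), (11, 2), (12, 3), (13,
   4), (9, 1), (10, 2), (11, 3), (12, 4), (1, 2), (9, 2), (10, 3), (11, 4), (3, 1), (2, 2), (1,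
   3), (8, 2), (9, 3), (10, 4), (4, 1), (3, 2), (2, 3), (7, 2), (8, 3), (9, 4), (5, 1), (4, 2),
   (3, 3), (2, 4), (6, 2), (7, 3), (8, 4), (5, 2), (4, 3), (3, 4), (2, 5), (6, 3), (7, 4), (8,
   5), (9, 6), (5, 3), (4, 4), (3, 5), (6, 4), (7, 5), (8, 6), (9, 7), (5, 4), (4, 5), (6, 5),
   (7, 6), (8, 7), (9, 8), (5, 5), (4, 6), (2, 8), (6, 6), (7, 7), (8, 8), (9, 9), (5, 6), (4,
   7), (3, 8), (2, 9), (6, 7), (7, 8), (8, 9), (5, 7), (4, 8), (3, 9), (6, 8), (7, 9), (8, 10),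
   (5, 8), (4, 9), (3, 10), (6, 9), (7, 10), (8, 21), (5, 9), (4, 10), (6, 10), (7, 11), (8, 12),
   (9, 13), (7, 21), (5, 10), (4, 11), (6, 11), (6, 21), (7, 12), (8, 13), (9, 14), (7, 20), (8,
   19), (9, 18), (5, 11), (6, 12), (6, 20), (7, 13), (8, 14), (7, 19), (8, 18), (5, 12), (5, 20),
   (6, 13), (6, 19), (7, 14), (8, 15), (7, 18), (8, 17), (4, 20), (5, 13), (5, 19), (6, 14), (6,
   18), (7, 15), (7, 17), (4, 19), (5, 14), (5, 18), (6, 15), (6, 17), (7, 16), (3, 19), (4, 18),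
   (5, 15), (5, 17), (6, 16), (3, 18), (4, 17), (5, 16), (3, 17), (4, 16), (2, 17), (3, 16), (1,
   17), (2, 16), (3, 15), (1, 16), (2, 15), (0, 16), (1, 15), (0, 15)]

def Gc5 : List ((ℤ × ℤ) × V3) :=
  [((0, 15), (1, 0, 4)), ((0, 16), (1, 0, 5)), ((0, 17), (1, 1, 5)), ((1, 2), (4, 2, 5)), ((1,
   3), (3, 2, 5)), ((1, 4), (2, 2, 5)), ((1, 15), (2, 0, 4)), ((1, 16), (2, 0, 5)), ((1, 17), (2,
   1, 5)), ((1, 18), (2, 2, 5)), ((2, 2), (4, 3, 5)), ((2, 3), (3, 3, 5)), ((2, 4), (2, 3, 5)),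
   ((2, 5), (1, 3, 5)), ((2, 6), (0, 3, 5)), ((2, 8), (2, 3, 5)), ((2, 9), (2, 2, 5)), ((2, 10),
   (2, 1, 5)), ((2, 15), (3, 0, 4)), ((2, 16), (3, 0, 5)), ((2, 17), (3, 1, 5)), ((2, 18), (3, 2,
   5)), ((3, 1), (5, 4, 5)), ((3, 2), (4, 4, 5)), ((3, 3), (3, 4, 5)), ((3, 4), (2, 4, 5)), ((3,
   5), (1, 4, 5)), ((3, 6), (0, 4, 5)), ((3, 8), (1, 3, 5)), ((3, 9), (1, 2, 5)), ((3, 10), (1,
   1, 5)), ((3, 11), (1, 0, 5)), ((3, 15), (4, 0, 4)), ((3, 16), (4, 0, 5)), ((3, 17), (4, 1,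
   5)), ((3, 18), (4, 2, 5)), ((3, 19), (4, 3, 5)), ((3, 20), (4, 4, 5)), ((4, 1), (5, 5, 5)),
   ((4, 2), (4, 5, 5)), ((4, 3), (3, 5, 5)), ((4, 4), (2, 5, 5)), ((4, 5), (1, 5, 5)), ((4, 6),
   (0, 5, 5)), ((4, 7), (0, 4, 5)), ((4, 8), (0, 3, 5)), ((4, 9), (0, 2, 5)), ((4, 10), (0, 1,
   5)), ((4, 11), (0, 0, 5)), ((4, 12), (1, 0, 5)), ((4, 15), (5, 0, 4)), ((4, 16), (5, 0, 5)),
   ((4, 17), (5, 1, 5)), ((4, 18), (5, 2, 5)), ((4, 19), (5, 3, 5)), ((4, 20), (5, 4, 5)), ((4,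
   21), (5, 5, 5)), ((5, 1), (5, 5, 4)), ((5, 2), (4, 5, 4)), ((5, 3), (3, 5, 4)), ((5, 4), (2,
   5, 4)), ((5, 5), (1, 5, 4)), ((5, 6), (0, 5, 4)), ((5, 7), (0, 4, 4)), ((5, 8), (0, 3, 4)),
   ((5, 9), (0, 2, 4)), ((5, 10), (0, 1, 4)), ((5, 11), (0, 0, 4)), ((5, 12), (1, 0, 4)), ((5,
   13), (2, 0, 4)), ((5, 14), (3, 0, 4)), ((5, 15), (4, 0, 4)), ((5, 16), (5, 0, 4)), ((5, 17),
   (5, 1, 4)), ((5, 18), (5, 2, 4)), ((5, 19), (5, 3, 4)), ((5, 20), (5, 4, 4)), ((5, 21), (5, 5,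
   4)), ((6, 1), (5, 5, 3)), ((6, 2), (4, 5, 3)), ((6, 3), (3, 5, 3)), ((6, 4), (2, 5, 3)), ((6,
   5), (1, 5, 3)), ((6, 6), (0, 5, 3)), ((6, 7), (0, 4, 3)), ((6, 8), (0, 3, 3)), ((6, 9), (0, 2,
   3)), ((6, 10), (0, 1, 3)), ((6, 11), (0, 0, 3)), ((6, 12), (1, 0, 3)), ((6, 13), (2, 0, 3)),
   ((6, 14), (3, 0, 3)), ((6, 15), (4, 0, 3)), ((6, 16), (5, 0, 3)), ((6, 17), (5, 1, 3)), ((6,
   18), (5, 2, 3)), ((6, 19), (5, 3, 3)), ((6, 20), (5, 4, 3)), ((6, 21), (5, 5, 3)), ((6, 22),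
   (4, 5, 3)), ((7, 2), (4, 5, 2)), ((7, 3), (3, 5, 2)), ((7, 4), (2, 5, 2)), ((7, 5), (1, 5,
   2)), ((7, 6), (0, 5, 2)), ((7, 7), (0, 4, 2)), ((7, 8), (0, 3, 2)), ((7, 9), (0, 2, 2)), ((7,
   10), (0, 1, 2)), ((7, 11), (0, 0, 2)), ((7, 12), (1, 0, 2)), ((7, 13), (2, 0, 2)), ((7, 14),
   (3, 0, 2)), ((7, 15), (4, 0, 2)), ((7, 16), (5, 0, 2)), ((7, 17), (5, 1, 2)), ((7, 18), (5, 2,
   2)), ((7, 19), (5, 3, 2)), ((7, 20), (5, 4, 2)), ((7, 21), (5, 5, 2)), ((7, 22), (4, 5, 2)),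
   ((8, 2), (4, 5, 1)), ((8, 3), (3, 5, 1)), ((8, 4), (2, 5, 1)), ((8, 5), (1, 5, 1)), ((8, 6),
   (0, 5, 1)), ((8, 7), (0, 4, 1)), ((8, 8), (0, 3, 1)), ((8, 9), (0, 2, 1)), ((8, 10), (0, 1,
   1)), ((8, 11), (0, 0, 1)), ((8, 12), (1, 0, 1)), ((8, 13), (2, 0, 1)), ((8, 14), (3, 0, 1)),
   ((8, 15), (4, 0, 1)), ((8, 16), (5, 0, 1)), ((8, 17), (5, 1, 1)), ((8, 18), (5, 2, 1)), ((8,
   19), (5, 3, 1)), ((8, 20), (5, 4, 1)), ((8, 21), (5, 5, 1)), ((8, 22), (4, 5, 1)), ((9, 0),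
   (5, 5, 1)), ((9, 1), (5, 5, 0)), ((9, 2), (4, 5, 0)), ((9, 3), (3, 5, 0)), ((9, 4), (2, 5,
   0)), ((9, 5), (1, 5, 0)), ((9, 6), (0, 5, 0)), ((9, 7), (0, 4, 0)), ((9, 8), (0, 3, 0)), ((9,
   9), (0, 2, 0)), ((9, 10), (0, 1, 0)), ((9, 11), (0, 0, 0)), ((9, 12), (1, 0, 0)), ((9, 13),
   (2, 0, 0)), ((9, 14), (3, 0, 0)), ((9, 15), (4, 0, 0)), ((9, 16), (5, 0, 0)), ((9, 17), (5, 1,
   0)), ((9, 18), (5, 2, 0)), ((9, 19), (5, 3, 0)), ((9, 20), (5, 4, 0)), ((9, 21), (5, 5, 0)),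
   ((9, 22), (4, 5, 0)), ((10, 0), (5, 4, 1)), ((10, 1), (5, 4, 0)), ((10, 2), (4, 4, 0)), ((10,
   3), (3, 4, 0)), ((10, 4), (2, 4, 0)), ((10, 5), (1, 4, 0)), ((10, 6), (1, 5, 0)), ((10, 7),
   (1, 4, 0)), ((10, 8), (1, 3, 0)), ((10, 9), (1, 2, 0)), ((10, 10), (1, 1, 0)), ((10, 13), (2,
   1, 0)), ((10, 14), (3, 1, 0)), ((10, 15), (4, 1, 0)), ((10, 18), (4, 2, 0)), ((10, 19), (4, 3,
   0)), ((11, 1), (5, 3, 0)), ((11, 2), (4, 3, 0)), ((11, 3), (3, 3, 0)), ((11, 4), (2, 3, 0)),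
   ((11, 5), (1, 3, 0)), ((12, 1), (5, 2, 0)), ((12, 2), (4, 2, 0)), ((12, 3), (3, 2, 0)), ((12,
   4), (2, 2, 0)), ((12, 5), (1, 2, 0)), ((13, 0), (5, 1, 1)), ((13, 1), (5, 1, 0)), ((13, 2),
   (4, 1, 0)), ((13, 3), (3, 1, 0)), ((13, 4), (2, 1, 0)), ((13, 5), (1, 1, 0)), ((13, 6), (0, 1,
   0)), ((14, 0), (5, 0, 1)), ((14, 1), (5, 0, 0)), ((14, 2), (4, 0, 0)), ((14, 4), (2, 0, 0)),
   ((14, 5), (1, 0, 0)), ((14, 6), (0, 0, 0)), ((15, 5), (1, 0, 1)), ((15, 6), (0, 0, 1))]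

theorem okc5 : okCert Gc5 Lc5 5 = true := by decide +kernel

def La3 : List (ℤ × ℤ) :=
  [(14, 5), (13, 5), (13, 0), (13, 4), (13, 1), (12, 4), (8, 7), (11, 4), (12, 1), (12, 3), (8,
   6), (10, 4), (11, 3), (12, 2), (7, 6), (8, 5), (9, 0), (9, 4), (10, 1), (10, 3), (11, 2), (6,
   6), (7, 5), (8, 4), (9, 1), (9, 3), (10, 2), (6, 5), (7, 4), (8, 3), (9, 2), (6, 4), (7, 3),
   (8, 2), (5, 4), (6, 3), (7, 2), (4, 4), (5, 1), (5, 3), (6, 2), (3, 4), (4, 1), (4, 3), (5,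
   2), (2, 4), (3, 1), (3, 3), (4, 2), (2, 3), (3, 2), (1, 3), (2, 2), (1, 2)]

def Ga3 : List ((ℤ × ℤ) × V3) :=
  [((1, 2), (3, 0, 2)), ((1, 3), (3, 1, 2)), ((1, 4), (3, 2, 2)), ((2, 2), (3, 0, 1)), ((2, 3),
   (3, 1, 1)), ((2, 4), (3, 2, 1)), ((2, 5), (3, 3, 1)), ((3, 1), (3, 0, 1)), ((3, 2), (3, 0,
   0)), ((3, 3), (3, 1, 0)), ((3, 4), (3, 2, 0)), ((3, 5), (3, 3, 0)), ((4, 1), (2, 0, 1)), ((4,
   2), (2, 0, 0)), ((4, 3), (2, 1, 0)), ((4, 4), (2, 2, 0)), ((4, 5), (2, 3, 0)), ((5, 1), (1, 0,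
   1)), ((5, 2), (1, 0, 0)), ((5, 3), (1, 1, 0)), ((5, 4), (1, 2, 0)), ((5, 5), (1, 3, 0)), ((6,
   1), (0, 0, 1)), ((6, 2), (0, 0, 0)), ((6, 3), (0, 1, 0)), ((6, 4), (0, 2, 0)), ((6, 5), (0, 3,
   0)), ((6, 6), (1, 3, 0)), ((6, 7), (2, 3, 0)), ((7, 2), (0, 0, 1)), ((7, 3), (0, 1, 1)), ((7,
   4), (0, 2, 1)), ((7, 5), (0, 3, 1)), ((7, 6), (1, 3, 1)), ((7, 7), (2, 3, 1)), ((8, 2), (0, 0,
   2)), ((8, 3), (0, 1, 2)), ((8, 4), (0, 2, 2)), ((8, 5), (0, 3, 2)), ((8, 6), (1, 3, 2)), ((8,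
   7), (2, 3, 2)), ((8, 8), (3, 3, 2)), ((9, 0), (0, 0, 1)), ((9, 1), (0, 0, 2)), ((9, 2), (0, 0,
   3)), ((9, 3), (0, 1, 3)), ((9, 4), (0, 2, 3)), ((9, 5), (0, 3, 3)), ((9, 6), (1, 3, 3)), ((9,
   7), (2, 3, 3)), ((9, 8), (3, 3, 3)), ((10, 0), (1, 0, 1)), ((10, 1), (1, 0, 2)), ((10, 2), (1,
   0, 3)), ((10, 3), (1, 1, 3)), ((10, 4), (1, 2, 3)), ((10, 5), (1, 3, 3)), ((11, 1), (2, 0,
   2)), ((11, 2), (2, 0, 3)), ((11, 3), (2, 1, 3)), ((11, 4), (2, 2, 3)), ((11, 5), (2, 3, 3)),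
   ((12, 1), (2, 0, 3)), ((12, 2), (3, 0, 3)), ((12, 3), (3, 1, 3)), ((12, 4), (3, 2, 3)), ((12,
   5), (3, 3, 3)), ((13, 0), (1, 0, 2)), ((13, 1), (2, 0, 2)), ((13, 2), (3, 0, 2)), ((13, 3),
   (3, 1, 2)), ((13, 4), (3, 2, 2)), ((13, 5), (3, 3, 2)), ((13, 6), (2, 3, 2)), ((14, 0), (1, 0,
   1)), ((14, 1), (2, 0, 1)), ((14, 2), (3, 0, 1)), ((14, 4), (3, 2, 1)), ((14, 5), (3, 3, 1)),
   ((14, 6), (2, 3, 1)), ((15, 5), (3, 3, 0)), ((15, 6), (2, 3, 0))]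

theorem oka3 : okCert Ga3 La3 3 = true := by decide +kernel

def Lb4 : List (ℤ × ℤ) :=
  [(2, 5), (9, 6), (3, 5), (9, 7), (4, 5), (9, 8), (5, 5), (4, 6), (2, 8), (7, 7), (8, 8), (9,
   9), (5, 6), (4, 7), (3, 8), (2, 9), (6, 7), (7, 8), (8, 9), (5, 7), (4, 8), (3, 9), (6, 8),
   (7, 9), (8, 10), (5, 8), (4, 9), (3, 10), (6, 9), (7, 10), (8, 21), (5, 9), (4, 10), (6, 10),
   (7, 11), (8, 12), (9, 13), (7, 21), (5, 10), (4, 11), (6, 11), (6, 21), (7, 12), (8, 13), (9,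
   14), (7, 20), (8, 19), (9, 18), (5, 11), (6, 12), (6, 20), (7, 13), (8, 14), (7, 19), (8, 18),
   (5, 12), (5, 20), (6, 13), (6, 19), (7, 14), (8, 15), (7, 18), (8, 17), (4, 20), (5, 13), (5,
   19), (6, 14), (6, 18), (7, 15), (7, 17), (4, 19), (5, 14), (5, 18), (6, 15), (6, 17), (7, 16),
   (3, 19), (4, 18), (5, 15), (5, 17), (6, 16), (3, 18), (4, 17), (5, 16), (3, 17), (4, 16), (2,
   17), (3, 16), (1, 17), (2, 16), (3, 15), (1, 16), (2, 15), (0, 16), (1, 15), (0, 15)]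

def Gb4 : List ((ℤ × ℤ) × V3) :=
  [((0, 15), (0, 0, 1)), ((0, 16), (0, 0, 0)), ((0, 17), (1, 0, 0)), ((1, 15), (0, 1, 1)), ((1,
   16), (0, 1, 0)), ((1, 17), (1, 1, 0)), ((1, 18), (2, 1, 0)), ((2, 5), (2, 3, 0)), ((2, 6), (2,
   2, 0)), ((2, 8), (4, 2, 0)), ((2, 9), (3, 2, 0)), ((2, 10), (2, 2, 0)), ((2, 15), (0, 2, 1)),
   ((2, 16), (0, 2, 0)), ((2, 17), (1, 2, 0)), ((2, 18), (2, 2, 0)), ((3, 5), (3, 3, 0)), ((3,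
   6), (3, 2, 0)), ((3, 8), (4, 1, 0)), ((3, 9), (3, 1, 0)), ((3, 10), (2, 1, 0)), ((3, 11), (1,
   1, 0)), ((3, 15), (0, 3, 1)), ((3, 16), (0, 3, 0)), ((3, 17), (1, 3, 0)), ((3, 18), (2, 3,
   0)), ((3, 19), (3, 3, 0)), ((3, 20), (4, 3, 0)), ((4, 5), (4, 3, 0)), ((4, 6), (4, 2, 0)),
   ((4, 7), (4, 1, 0)), ((4, 8), (4, 0, 0)), ((4, 9), (3, 0, 0)), ((4, 10), (2, 0, 0)), ((4, 11),
   (1, 0, 0)), ((4, 12), (0, 0, 0)), ((4, 15), (0, 4, 1)), ((4, 16), (0, 4, 0)), ((4, 17), (1, 4,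
   0)), ((4, 18), (2, 4, 0)), ((4, 19), (3, 4, 0)), ((4, 20), (4, 4, 0)), ((4, 21), (4, 3, 0)),
   ((5, 5), (4, 3, 1)), ((5, 6), (4, 2, 1)), ((5, 7), (4, 1, 1)), ((5, 8), (4, 0, 1)), ((5, 9),
   (3, 0, 1)), ((5, 10), (2, 0, 1)), ((5, 11), (1, 0, 1)), ((5, 12), (0, 0, 1)), ((5, 13), (0, 1,
   1)), ((5, 14), (0, 2, 1)), ((5, 15), (0, 3, 1)), ((5, 16), (0, 4, 1)), ((5, 17), (1, 4, 1)),
   ((5, 18), (2, 4, 1)), ((5, 19), (3, 4, 1)), ((5, 20), (4, 4, 1)), ((5, 21), (4, 3, 1)), ((6,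
   5), (4, 3, 2)), ((6, 6), (4, 2, 2)), ((6, 7), (4, 1, 2)), ((6, 8), (4, 0, 2)), ((6, 9), (3, 0,
   2)), ((6, 10), (2, 0, 2)), ((6, 11), (1, 0, 2)), ((6, 12), (0, 0, 2)), ((6, 13), (0, 1, 2)),
   ((6, 14), (0, 2, 2)), ((6, 15), (0, 3, 2)), ((6, 16), (0, 4, 2)), ((6, 17), (1, 4, 2)), ((6,
   18), (2, 4, 2)), ((6, 19), (3, 4, 2)), ((6, 20), (4, 4, 2)), ((6, 21), (4, 3, 2)), ((6, 22),
   (4, 2, 2)), ((7, 7), (4, 1, 3)), ((7, 8), (4, 0, 3)), ((7, 9), (3, 0, 3)), ((7, 10), (2, 0,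
   3)), ((7, 11), (1, 0, 3)), ((7, 12), (0, 0, 3)), ((7, 13), (0, 1, 3)), ((7, 14), (0, 2, 3)),
   ((7, 15), (0, 3, 3)), ((7, 16), (0, 4, 3)), ((7, 17), (1, 4, 3)), ((7, 18), (2, 4, 3)), ((7,
   19), (3, 4, 3)), ((7, 20), (4, 4, 3)), ((7, 21), (4, 3, 3)), ((7, 22), (4, 2, 3)), ((8, 7),
   (4, 1, 4)), ((8, 8), (4, 0, 4)), ((8, 9), (3, 0, 4)), ((8, 10), (2, 0, 4)), ((8, 11), (1, 0,
   4)), ((8, 12), (0, 0, 4)), ((8, 13), (0, 1, 4)), ((8, 14), (0, 2, 4)), ((8, 15), (0, 3, 4)),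
   ((8, 16), (0, 4, 4)), ((8, 17), (1, 4, 4)), ((8, 18), (2, 4, 4)), ((8, 19), (3, 4, 4)), ((8,
   20), (4, 4, 4)), ((8, 21), (4, 3, 4)), ((8, 22), (4, 2, 4)), ((9, 6), (4, 1, 2)), ((9, 7), (4,
   1, 3)), ((9, 8), (4, 1, 4)), ((9, 9), (3, 1, 4)), ((9, 10), (2, 1, 4)), ((9, 11), (1, 1, 4)),
   ((9, 12), (1, 0, 4)), ((9, 13), (1, 1, 4)), ((9, 14), (1, 2, 4)), ((9, 15), (1, 3, 4)), ((9,
   16), (1, 4, 4)), ((9, 17), (1, 3, 4)), ((9, 18), (2, 3, 4)), ((9, 19), (3, 3, 4)), ((9, 20),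
   (4, 3, 4)), ((9, 21), (3, 3, 4)), ((9, 22), (3, 2, 4)), ((10, 6), (4, 2, 2)), ((10, 7), (4, 2,
   3)), ((10, 8), (4, 2, 4)), ((10, 9), (3, 2, 4)), ((10, 10), (2, 2, 4)), ((10, 13), (2, 1, 4)),
   ((10, 14), (2, 2, 4)), ((10, 15), (2, 3, 4)), ((10, 18), (2, 2, 4)), ((10, 19), (3, 2, 4))]

theorem okb4 : okCert Gb4 Lb4 4 = true := by decide +kernel

theorem union_ab : Lc5.toFinset = La3.toFinset ∪ Lb4.toFinset := by decide +kernel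

theorem disj_ab : Disjoint La3.toFinset Lb4.toFinset := by decide +kernel

end Pool.Agent.H55.Cube
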