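import Pool.Agent.H55.Cube.Fold2

/-!
# Connectedness of the interior; scaling
-/

open MeasureTheory Set
open scoped Pointwise

namespace Pool.Agent.H55.Cube

/-- the open unit square -/
def ocell (p : ℤ × ℤ) : Set Plane :=
  {z | ((p.1 : ℝ) < z 0 ∧ z 0 < p.1 + 1) ∧ ((p.2 : ℝ) < z 1 ∧ z 1 < p.2 + 1)}

/-- an open rectangle -/
def orect (a b c d : ℝ) : Set Plane := {z | (a < z 0 ∧ z 0 < b) ∧ (c < z 1 ∧ z 1 < d)}

theorem orect_isOpen (a b c d : ℝ) : IsOpen (orect a b c d) := by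
  have h0 : Continuous fun z : Plane => z 0 := by fun_prop
  have h1 : Continuous fun z : Plane => z 1 := by fun_prop
  exact ((isOpen_lt continuous_const h0).inter (isOpen_lt h0 continuous_const)).inter
    ((isOpen_lt continuous_const h1).inter (isOpen_lt h1 continuous_const))

theorem orect_convex (a b c d : ℝ) : Convex ℝ (orect a b c d) := by
  have h : orect a b c d = (fun z : Plane => z 0) ⁻¹' (Ioo a b) ∩
      (fun z : Plane => z 1) ⁻¹' (Ioo c d) := by
    ext z; simp [orect]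
  rw [h]
  apply Convex.inter
  · exact (convex_Ioo a b).is_linear_preimage ⟨fun x y => rfl, fun c x => rfl⟩
  · exact (convex_Ioo c d).is_linear_preimage ⟨fun x y => rfl, fun c x => rfl⟩

theorem ocell_eq (p : ℤ × ℤ) : ocell p = orect p.1 (p.1 + 1) p.2 (p.2 + 1) := rfl

/-- centre of a cell -/
noncomputable def mid (p : ℤ × ℤ) : Plane :=
  WithLp.toLp 2 ![(p.1 : ℝ) + 1 / 2, (p.2 : ℝ) + 1 / 2]

theorem mid_mem (p : ℤ × ℤ) : mid p ∈ ocell p := by
  simp only [mid, ocell, mem_ofPred_eq]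
  norm_num

theorem cell_subset_closure (p : ℤ × ℤ) : cell p ⊆ closure (ocell p) := by
  intro z hz
  obtain ⟨⟨h1, h2⟩, h3, h4⟩ := hz
  -- the points `(1 - t) z + t mid p` tend to `z`
  have hc : Continuous fun t : ℝ => (1 - t) • z + t • mid p := by fun_prop
  have hlim : Filter.Tendsto (fun t : ℝ => (1 - t) • z + t • mid p) (nhdsWithin 0 (Ioi 0))
      (nhds z) := by
    have := (hc.tendsto 0).mono_left (nhdsWithin_le_nhds (s := Ioi 0))
    simpa using this
  apply mem_closure_of_tendsto hlim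
  have h01 : ∀ᶠ t : ℝ in nhdsWithin 0 (Ioi 0), t ∈ Ioo (0 : ℝ) 1 :=
    Ioo_mem_nhdsGT one_pos
  filter_upwards [h01] with t ht
  obtain ⟨t0, t1⟩ := ht
  simp only [ocell, mid, mem_ofPred_eq]
  simp only [PiLp.add_apply, PiLp.smul_apply, smul_eq_mul, Matrix.cons_val_zero,
    Matrix.cons_val_one]
  have u : 0 < 1 - t := by linarith
  refine ⟨⟨?_, ?_⟩, ?_, ?_⟩ <;> nlinarith

/-- Adjacency of cells. -/
def adj (p q : ℤ × ℤ) : Bool :=
  (p.1 == q.1 && (p.2 + 1 == q.2 || q.2 + 1 == p.2)) ||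
  (p.2 == q.2 && (p.1 + 1 == q.1 || q.1 + 1 == p.1))

/-- Every cell of the list except the last one has a neighbour later in the list. -/
def conn : List (ℤ × ℤ) → Bool
  | [] => false
  | [_] => true
  | p :: q :: l => (q :: l).any (adj p) && conn (q :: l)

/-- the open domino around two adjacent cells -/
theorem exists_domino {p q : ℤ × ℤ} (h : adj p q = true) : ∃ D : Set Plane, IsOpen D ∧
    IsPreconnected D ∧ ocell p ⊆ D ∧ ocell q ⊆ D ∧ D ⊆ cell p ∪ cell q := by
  obtain ⟨m, n⟩ := p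
  obtain ⟨m', n'⟩ := q
  simp only [adj, Bool.or_eq_true, Bool.and_eq_true, beq_iff_eq] at h
  rcases h with ⟨rfl, rfl | rfl⟩ | ⟨rfl, rfl | rfl⟩
  · refine ⟨orect m (m + 1) n (n + 2), orect_isOpen _ _ _ _,
      (orect_convex _ _ _ _).isPreconnected, ?_, ?_, ?_⟩
    · rintro z ⟨⟨h1, h2⟩, h3, h4⟩
      exact ⟨⟨h1, h2⟩, h3, by simp only at h4; linarith⟩
    · rintro z ⟨⟨h1, h2⟩, h3, h4⟩
      simp only at h3 h4; push_cast at h3 h4
      exact ⟨⟨h1, h2⟩, by linarith, by linarith⟩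
    · rintro z ⟨⟨h1, h2⟩, h3, h4⟩
      rcases le_total (z 1) (n + 1) with h | h
      · exact Or.inl ⟨⟨h1.le, h2.le⟩, h3.le, h⟩
      · refine Or.inr ⟨⟨h1.le, h2.le⟩, ?_, ?_⟩ <;> push_cast
        · exact h
        · linarith
  · refine ⟨orect m (m + 1) n' (n' + 2), orect_isOpen _ _ _ _,
      (orect_convex _ _ _ _).isPreconnected, ?_, ?_, ?_⟩
    · rintro z ⟨⟨h1, h2⟩, h3, h4⟩
      simp only at h3 h4; push_cast at h3 h4
      exact ⟨⟨h1, h2⟩, by linarith, by linarith⟩
    · rintro z ⟨⟨h1, h2⟩, h3, h4⟩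
      exact ⟨⟨h1, h2⟩, h3, by simp only at h4; linarith⟩
    · rintro z ⟨⟨h1, h2⟩, h3, h4⟩
      rcases le_total (z 1) (n' + 1) with h | h
      · exact Or.inr ⟨⟨h1.le, h2.le⟩, h3.le, h⟩
      · refine Or.inl ⟨⟨h1.le, h2.le⟩, ?_, ?_⟩ <;> push_cast
        · exact h
        · linarith
  · refine ⟨orect m (m + 2) n (n + 1), orect_isOpen _ _ _ _,
      (orect_convex _ _ _ _).isPreconnected, ?_, ?_, ?_⟩
    · rintro z ⟨⟨h1, h2⟩, h3, h4⟩
      exact ⟨⟨h1, by simp only at h2; linarith⟩, h3, h4⟩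
    · rintro z ⟨⟨h1, h2⟩, h3, h4⟩
      simp only at h1 h2; push_cast at h1 h2
      exact ⟨⟨by linarith, by linarith⟩, h3, h4⟩
    · rintro z ⟨⟨h1, h2⟩, h3, h4⟩
      rcases le_total (z 0) (m + 1) with h | h
      · exact Or.inl ⟨⟨h1.le, h⟩, h3.le, h4.le⟩
      · refine Or.inr ⟨⟨?_, ?_⟩, h3.le, h4.le⟩ <;> push_cast
        · exact h
        · linarith
  · refine ⟨orect m' (m' + 2) n (n + 1), orect_isOpen _ _ _ _,
      (orect_convex _ _ _ _).isPreconnected, ?_, ?_, ?_⟩
    · rintro z ⟨⟨h1, h2⟩, h3, h4⟩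
      simp only at h1 h2; push_cast at h1 h2
      exact ⟨⟨by linarith, by linarith⟩, h3, h4⟩
    · rintro z ⟨⟨h1, h2⟩, h3, h4⟩
      exact ⟨⟨h1, by simp only at h2; linarith⟩, h3, h4⟩
    · rintro z ⟨⟨h1, h2⟩, h3, h4⟩
      rcases le_total (z 0) (m' + 1) with h | h
      · exact Or.inr ⟨⟨h1.le, h⟩, h3.le, h4.le⟩
      · refine Or.inl ⟨⟨?_, ?_⟩, h3.le, h4.le⟩ <;> push_cast
        · exact h
        · linarith

theorem exists_core (L : List (ℤ × ℤ)) (h : conn L = true) : ∃ D : Set Plane, IsOpen D ∧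
    IsConnected D ∧ (∀ p ∈ L, ocell p ⊆ D) ∧ D ⊆ region L.toFinset := by
  induction L with
  | nil => simp [conn] at h
  | cons p l ih =>
    cases l with
    | nil =>
      refine ⟨ocell p, orect_isOpen _ _ _ _, ⟨⟨mid p, mid_mem p⟩,
        (orect_convex _ _ _ _).isPreconnected⟩, by simp, ?_⟩
      rintro z ⟨⟨h1, h2⟩, h3, h4⟩
      simp only [region, List.toFinset_cons, List.toFinset_nil, insert_empty_eq,
        Finset.mem_singleton, iUnion_iUnion_eq_left]
      exact ⟨⟨h1.le, h2.le⟩, h3.le, h4.le⟩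
    | cons q l =>
      simp only [conn, Bool.and_eq_true, List.any_eq_true] at h
      obtain ⟨⟨r, hr, hadj⟩, hconn⟩ := h
      obtain ⟨D, hDo, hDc, hDl, hDr⟩ := ih hconn
      obtain ⟨E, hEo, hEc, hEp, hEr, hEsub⟩ := exists_domino hadj
      refine ⟨E ∪ D, hEo.union hDo, ⟨hDc.nonempty.inr, ?_⟩, ?_, ?_⟩
      · exact IsPreconnected.union (mid r) (hEr (mid_mem r)) (hDl r hr (mid_mem r)) hEc
          hDc.isPreconnected
      · intro s hs
        rcases List.mem_cons.1 hs with rfl | hs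
        · exact hEp.trans subset_union_left
        · exact (hDl s hs).trans subset_union_right
      · rintro z (hz | hz)
        · rcases hEsub hz with hz | hz
          · exact mem_biUnion (by simp) hz
          · exact mem_biUnion (show r ∈ (p :: q :: l).toFinset from
              List.mem_toFinset.2 (List.mem_cons_of_mem _ hr)) hz
        · obtain ⟨s, hs, hzs⟩ : ∃ s ∈ (q :: l).toFinset, z ∈ cell s := by
            have := hDr hz
            simpa only [region, mem_iUnion, exists_prop] using this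
          refine mem_biUnion (show s ∈ (p :: q :: l).toFinset from ?_) hzs
          rw [List.mem_toFinset] at hs ⊢
          exact List.mem_cons_of_mem _ hs

theorem isConnected_interior (L : List (ℤ × ℤ)) (h : conn L = true) :
    IsConnected (interior (region L.toFinset)) := by
  obtain ⟨D, hDo, hDc, hDl, hDr⟩ := exists_core L h
  have h1 : D ⊆ interior (region L.toFinset) := interior_maximal hDr hDo
  refine ⟨hDc.nonempty.mono h1, hDc.isPreconnected.subset_closure h1 ?_⟩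
  refine interior_subset.trans ?_
  intro z hz
  obtain ⟨s, hs, hzs⟩ : ∃ s ∈ L.toFinset, z ∈ cell s := by
    simpa only [region, mem_iUnion, exists_prop] using hz
  exact closure_mono (hDl s (List.mem_toFinset.1 hs)) (cell_subset_closure s hzs)

end Pool.Agent.H55.Cube
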