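import Mathlib

/-!
# Definitions for dissections of cube-folding polyominoes (problem MP_842ac8_co)
-/

open MeasureTheory Set

namespace Pool.Agent.H55.Cube

/-- The Euclidean plane. -/
abbrev Plane := EuclideanSpace ℝ (Fin 2)

/-- Euclidean 3-space. -/
abbrev Space := EuclideanSpace ℝ (Fin 3)

/-- The closed unit square of the grid with lower left corner `p`. -/
def cell (p : ℤ × ℤ) : Set Plane :=
  {z | ((p.1 : ℝ) ≤ z 0 ∧ z 0 ≤ p.1 + 1) ∧ ((p.2 : ℝ) ≤ z 1 ∧ z 1 ≤ p.2 + 1)}

/-- The union of a finite set of unit squares. -/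
def region (F : Finset (ℤ × ℤ)) : Set Plane := ⋃ p ∈ F, cell p

/-- `P` is a polyomino of area `n`: a union of `n` unit squares of the grid whose interior is
connected (in particular nonempty). -/
def IsPolyominoOfArea (P : Set Plane) (n : ℕ) : Prop :=
  ∃ F : Finset (ℤ × ℤ), F.card = n ∧ P = region F ∧ IsConnected (interior P)

/-- `P` is a polyomino. -/
def IsPolyomino (P : Set Plane) : Prop := ∃ n, IsPolyominoOfArea P n

/-- The surface of the cube `[0,s]^3`. -/
def cubeSurface (s : ℝ) : Set Space := frontier {x | ∀ i, 0 ≤ x i ∧ x i ≤ s}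

/-- `P` folds into the surface `C`: there is a continuous surjection `f : P → C` which preserves
the length of every path in `P` and is injective outside a set of measure zero. -/
def FoldsInto (P : Set Plane) (C : Set Space) : Prop :=
  ∃ f : Plane → Space, ContinuousOn f P ∧ f '' P = C ∧
    (∀ γ : ℝ → Plane, ContinuousOn γ (Icc 0 1) → MapsTo γ (Icc 0 1) P →
      eVariationOn (f ∘ γ) (Icc 0 1) = eVariationOn γ (Icc 0 1)) ∧
    ∃ N : Set Plane, volume N = 0 ∧ InjOn f (P \ N)

/-- The integer points of the plane. -/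
def gridPoints : Set Plane := {z | ∀ i, ∃ n : ℤ, z i = n}

/-- The polyominoes `P i`, `i ∈ I`, are glued into `R`: copies of them, each moved by an isometry
of the plane mapping the grid onto itself, have pairwise disjoint interiors and union `R`. -/
def GlueInto {k : ℕ} (P : Fin k → Set Plane) (I : Set (Fin k)) (R : Set Plane) : Prop :=
  ∃ φ : Fin k → (Plane ≃ᵢ Plane),
    (∀ i ∈ I, φ i '' gridPoints = gridPoints) ∧
    (∀ i ∈ I, ∀ j ∈ I, i ≠ j → Disjoint (interior (φ i '' P i)) (interior (φ j '' P j))) ∧
    R = ⋃ i ∈ I, φ i '' P i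

/-- `k` is admissible for the triple `(a, b, c)`: some polyomino `Pc` of area `6c^2` which folds
into a cube of side `c` is divided into `k` polyominoes such that some of them glue into a
polyomino folding into a cube of side `a` and the others glue into a polyomino folding into a
cube of side `b`. -/
def Admissible (a b c k : ℕ) : Prop :=
  ∃ (Pc Pa Pb : Set Plane) (P : Fin k → Set Plane) (I : Set (Fin k)),
    (IsPolyominoOfArea Pc (6 * c ^ 2) ∧ FoldsInto Pc (cubeSurface c)) ∧
    ((∀ i, IsPolyomino (P i)) ∧ (∀ i j, i ≠ j → Disjoint (interior (P i)) (interior (P j))) ∧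
      Pc = ⋃ i, P i) ∧
    (GlueInto P I Pa ∧ IsPolyomino Pa ∧ FoldsInto Pa (cubeSurface a)) ∧
    (GlueInto P Iᶜ Pb ∧ IsPolyomino Pb ∧ FoldsInto Pb (cubeSurface b))

end Pool.Agent.H55.Cube
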