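import Mathlib

/-!
Two paths which have the same distances on each member of a finite closed cover of the
parameter interval have the same length.
-/

open Set

namespace Pool.Agent.H55.Cube

variable {E F : Type*} [PseudoEMetricSpace E] [PseudoEMetricSpace F]

theorem edist_le_of_cover {ι : Type*} [DecidableEq ι] (A : ι → Set ℝ) (g : ℝ → E) (h : ℝ → F)
    (hA : ∀ i, IsClosed (A i))
    (hgh : ∀ i, ∀ s ∈ A i, ∀ t ∈ A i, edist (g s) (g t) ≤ edist (h s) (h t))
    (I : Finset ι) : ∀ s t : ℝ, s ≤ t → Icc s t ⊆ ⋃ i ∈ I, A i →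
      edist (g s) (g t) ≤ eVariationOn h (Icc s t) := by
  induction I using Finset.strongInduction with
  | H I ih =>
    intro s t hst hcov
    have hs : s ∈ ⋃ i ∈ I, A i := hcov (left_mem_Icc.2 hst)
    obtain ⟨i, hiI, hsi⟩ : ∃ i ∈ I, s ∈ A i := by simpa using hs
    set T : Set ℝ := A i ∩ Icc s t with hT
    have hTc : IsCompact T := (isCompact_Icc.inter_left (hA i))
    have hTn : T.Nonempty := ⟨s, hsi, left_mem_Icc.2 hst⟩
    have hs1 : sSup T ∈ T := hTc.sSup_mem hTn
    set s1 := sSup T with hs1def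
    have h1 : edist (g s) (g s1) ≤ eVariationOn h (Icc s s1) :=
      (hgh i s hsi s1 hs1.1).trans (eVariationOn.edist_le h (left_mem_Icc.2 hs1.2.1)
        (right_mem_Icc.2 hs1.2.1))
    have h2 : edist (g s1) (g t) ≤ eVariationOn h (Icc s1 t) := by
      rcases eq_or_lt_of_le hs1.2.2 with heq | hlt
      · rw [heq]; simp
      · apply ih (I.erase i) (Finset.erase_ssubset hiI) s1 t hlt.le
        have hcl : IsClosed (⋃ j ∈ I.erase i, A j) :=
          (I.erase i).finite_toSet.isClosed_biUnion (fun j _ => hA j)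
        have hsub : Ioc s1 t ⊆ ⋃ j ∈ I.erase i, A j := by
          intro x hx
          have hxI : x ∈ ⋃ i ∈ I, A i := hcov ⟨hs1.2.1.trans hx.1.le, hx.2⟩
          obtain ⟨j, hjI, hxj⟩ : ∃ i ∈ I, x ∈ A i := by simpa using hxI
          have hji : j ≠ i := by
            rintro rfl
            have hxT : x ∈ T := ⟨hxj, hs1.2.1.trans hx.1.le, hx.2⟩
            have : x ≤ s1 := le_csSup hTc.bddAbove hxT
            exact absurd hx.1 (not_lt.2 this)
          simp only [mem_iUnion]
          exact ⟨j, Finset.mem_erase.2 ⟨hji, hjI⟩, hxj⟩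
        have := closure_minimal hsub hcl
        rwa [closure_Ioc hlt.ne] at this
    calc edist (g s) (g t) ≤ edist (g s) (g s1) + edist (g s1) (g t) := edist_triangle _ _ _
      _ ≤ eVariationOn h (Icc s s1) + eVariationOn h (Icc s1 t) := add_le_add h1 h2
      _ = eVariationOn h (Icc s t) := by
        have := eVariationOn.Icc_add_Icc h (s := univ) hs1.2.1 hs1.2.2 (mem_univ _)
        simpa using this

theorem eVariationOn_le_of_edist_le (g : ℝ → E) (h : ℝ → F) (a b : ℝ)
    (H : ∀ s t : ℝ, a ≤ s → s ≤ t → t ≤ b → edist (g s) (g t) ≤ eVariationOn h (Icc s t)) :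
    eVariationOn g (Icc a b) ≤ eVariationOn h (Icc a b) := by
  apply iSup_le
  rintro ⟨n, u, hu, hus⟩
  have key : ∀ m : ℕ, ∑ i ∈ Finset.range m, edist (g (u (i + 1))) (g (u i))
      ≤ eVariationOn h (Icc (u 0) (u m)) := by
    intro m
    induction m with
    | zero => simp
    | succ m ihm =>
      rw [Finset.sum_range_succ]
      have h1 : edist (g (u (m + 1))) (g (u m)) ≤ eVariationOn h (Icc (u m) (u (m + 1))) := by
        rw [edist_comm]
        exact H _ _ (hus m).1 (hu (Nat.le_succ m)) (hus (m + 1)).2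
      calc _ ≤ eVariationOn h (Icc (u 0) (u m)) + eVariationOn h (Icc (u m) (u (m + 1))) :=
            add_le_add ihm h1
        _ = _ := by
          have := eVariationOn.Icc_add_Icc h (s := univ) (hu (Nat.zero_le m)) (hu (Nat.le_succ m))
            (mem_univ _)
          simpa using this
  exact (key n).trans (eVariationOn.mono h (Icc_subset_Icc (hus 0).1 (hus n).2))

theorem eVariationOn_eq_of_cover {ι : Type*} [Finite ι] (A : ι → Set ℝ) (g : ℝ → E)
    (h : ℝ → F) (a b : ℝ) (hA : ∀ i, IsClosed (A i)) (hcov : Icc a b ⊆ ⋃ i, A i)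
    (hgh : ∀ i, ∀ s ∈ A i, ∀ t ∈ A i, edist (g s) (g t) = edist (h s) (h t)) :
    eVariationOn g (Icc a b) = eVariationOn h (Icc a b) := by
  classical
  cases nonempty_fintype ι
  have hcov' : ∀ s t : ℝ, a ≤ s → t ≤ b → Icc s t ⊆ ⋃ i ∈ (Finset.univ : Finset ι), A i := by
    intro s t hs ht
    refine (Icc_subset_Icc hs ht).trans (hcov.trans ?_)
    simp
  apply le_antisymm
  · exact eVariationOn_le_of_edist_le g h a b fun s t hs hst ht =>
      edist_le_of_cover A g h hA (fun i s hs t ht => (hgh i s hs t ht).le) Finset.univ s t hst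
        (hcov' s t hs ht)
  · exact eVariationOn_le_of_edist_le h g a b fun s t hs hst ht =>
      edist_le_of_cover A h g hA (fun i s hs t ht => (hgh i s hs t ht).ge) Finset.univ s t hst
        (hcov' s t hs ht)

end Pool.Agent.H55.Cube
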