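import Pool.Agent.H55.Cube.Defs
import Pool.Agent.H55.Cube.Length

/-!
# Folding a polyomino onto a cube surface from a vertex table
-/

open MeasureTheory Set

namespace Pool.Agent.H55.Cube

/-- Integer vectors in space. -/
abbrev V3 := ℤ × ℤ × ℤ

/-- coordinates of an integer vector -/
def co (v : V3) : Fin 3 → ℤ := ![v.1, v.2.1, v.2.2]

/-- unit vectors -/
def units : List V3 := [(1,0,0), (-1,0,0), (0,1,0), (0,-1,0), (0,0,1), (0,0,-1)]

/-- lower right, upper left, upper right corners -/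
def cE (p : ℤ × ℤ) : ℤ × ℤ := (p.1 + 1, p.2)
def cN (p : ℤ × ℤ) : ℤ × ℤ := (p.1, p.2 + 1)
def cNE (p : ℤ × ℤ) : ℤ × ℤ := (p.1 + 1, p.2 + 1)

/-- The frame condition for the cell `p` and the vertex map `g`. -/
structure GoodCell (g : ℤ × ℤ → V3) (p : ℤ × ℤ) : Prop where
  u : g (cE p) - g p ∈ units
  v : g (cN p) - g p ∈ units
  ne : g (cN p) - g p ≠ g (cE p) - g p
  ne' : g (cN p) - g p ≠ -(g (cE p) - g p)
  z : g (cNE p) = g (cE p) + g (cN p) - g p

/-- The affine map of the cell `p`. -/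
noncomputable def aff (g : ℤ × ℤ → V3) (p : ℤ × ℤ) (z : Plane) : Space :=
  WithLp.toLp 2 (fun i => (co (g p) i : ℝ) + (z 0 - p.1) * (co (g (cE p)) i - co (g p) i)
    + (z 1 - p.2) * (co (g (cN p)) i - co (g p) i))

/-- twice the centre of the image of the cell -/
def key (g : ℤ × ℤ → V3) (p : ℤ × ℤ) : V3 := g p + g (cNE p)

theorem aff_apply (g : ℤ × ℤ → V3) (p : ℤ × ℤ) (z : Plane) (i : Fin 3) :
    aff g p z i = (co (g p) i : ℝ) + (z 0 - p.1) * (co (g (cE p)) i - co (g p) i)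
    + (z 1 - p.2) * (co (g (cN p)) i - co (g p) i) := rfl

theorem co_add (u v : V3) (i : Fin 3) : co (u + v) i = co u i + co v i := by
  fin_cases i <;> simp [co]

theorem co_sub (u v : V3) (i : Fin 3) : co (u - v) i = co u i - co v i := by
  fin_cases i <;> simp [co]

/-- The four corner values of a good cell, in coordinates. -/
theorem GoodCell.zc {g : ℤ × ℤ → V3} {p : ℤ × ℤ} (h : GoodCell g p) (i : Fin 3) :
    co (g (cNE p)) i = co (g (cE p)) i + co (g (cN p)) i - co (g p) i := by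
  rw [h.z, co_sub, co_add]

theorem units_sq : ∀ u ∈ units, co u 0 ^ 2 + co u 1 ^ 2 + co u 2 ^ 2 = 1 := by decide

theorem units_dot : ∀ u ∈ units, ∀ v ∈ units, v ≠ u → v ≠ -u →
    co u 0 * co v 0 + co u 1 * co v 1 + co u 2 * co v 2 = 0 := by decide

theorem units_coord : ∀ u ∈ units, ∀ v ∈ units, v ≠ u → v ≠ -u → ∀ i : Fin 3,
    (co u i = 0 ∧ co v i = 0) ∨ (co u i = 1 ∧ co v i = 0) ∨ (co u i = -1 ∧ co v i = 0) ∨
    (co u i = 0 ∧ co v i = 1) ∨ (co u i = 0 ∧ co v i = -1) := by decide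

theorem GoodCell.dist {g : ℤ × ℤ → V3} {p : ℤ × ℤ} (h : GoodCell g p) (z w : Plane) :
    dist (aff g p z) (aff g p w) = dist z w := by
  have h1 : (co (g (cE p) - g p) 0 : ℝ) ^ 2 + (co (g (cE p) - g p) 1 : ℝ) ^ 2
      + (co (g (cE p) - g p) 2 : ℝ) ^ 2 = 1 := by exact_mod_cast units_sq _ h.u
  have h2 : (co (g (cN p) - g p) 0 : ℝ) ^ 2 + (co (g (cN p) - g p) 1 : ℝ) ^ 2
      + (co (g (cN p) - g p) 2 : ℝ) ^ 2 = 1 := by exact_mod_cast units_sq _ h.v
  have h3 : (co (g (cE p) - g p) 0 : ℝ) * co (g (cN p) - g p) 0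
      + (co (g (cE p) - g p) 1 : ℝ) * co (g (cN p) - g p) 1
      + (co (g (cE p) - g p) 2 : ℝ) * co (g (cN p) - g p) 2 = 0 := by
    exact_mod_cast units_dot _ h.u _ h.v h.ne h.ne'
  rw [EuclideanSpace.dist_eq, EuclideanSpace.dist_eq]
  congr 1
  simp only [Fin.sum_univ_three, Fin.sum_univ_two, Real.dist_eq, sq_abs]
  simp only [aff_apply]
  rw [co_sub, co_sub, co_sub] at h1 h2
  simp only [co_sub] at h3
  push_cast at h1 h2 h3
  set a := z.ofLp 0 - w.ofLp 0 with ha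
  set b := z.ofLp 1 - w.ofLp 1 with hb
  linear_combination (a ^ 2) * h1 + (b ^ 2) * h2 + (2 * a * b) * h3

/-- The maps of two good cells agree on the intersection of the cells. -/
theorem aff_eq {g : ℤ × ℤ → V3} {p q : ℤ × ℤ} (hp : GoodCell g p) (hq : GoodCell g q)
    {z : Plane} (hzp : z ∈ cell p) (hzq : z ∈ cell q) : aff g p z = aff g q z := by
  obtain ⟨m, n⟩ := p
  obtain ⟨m', n'⟩ := q
  obtain ⟨⟨h1, h2⟩, h3, h4⟩ := hzp
  obtain ⟨⟨k1, k2⟩, k3, k4⟩ := hzq
  simp only at h1 h2 h3 h4 k1 k2 k3 k4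
  have e1 : m' ≤ m + 1 := by exact_mod_cast k1.trans h2
  have e2 : m ≤ m' + 1 := by exact_mod_cast h1.trans k2
  have e3 : n' ≤ n + 1 := by exact_mod_cast k3.trans h4
  have e4 : n ≤ n' + 1 := by exact_mod_cast h3.trans k4
  have zp := fun i => hp.zc i
  have zq := fun i => hq.zc i
  simp only [cE, cN, cNE] at zp zq
  have zpr : ∀ i, (co (g (m + 1, n + 1)) i : ℝ) = co (g (m + 1, n)) i + co (g (m, n + 1)) i
      - co (g (m, n)) i := fun i => by exact_mod_cast zp i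
  have zqr : ∀ i, (co (g (m' + 1, n' + 1)) i : ℝ) = co (g (m' + 1, n')) i
      + co (g (m', n' + 1)) i - co (g (m', n')) i := fun i => by exact_mod_cast zq i
  ext i
  rw [aff_apply, aff_apply]
  simp only [cE, cN]
  have zpi := zpr i
  have zqi := zqr i
  rcases (show m' = m + 1 ∨ m' = m ∨ m = m' + 1 by omega) with rfl | rfl | rfl <;>
  rcases (show n' = n + 1 ∨ n' = n ∨ n = n' + 1 by omega) with rfl | rfl | rfl <;>
  push_cast at h1 h2 h3 h4 k1 k2 k3 k4 ⊢
  · have a0 : z.ofLp 0 = m + 1 := le_antisymm h2 k1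
    have a1 : z.ofLp 1 = n + 1 := le_antisymm h4 k3
    rw [a0, a1]
    linear_combination -zpi
  · have a0 : z.ofLp 0 = m + 1 := le_antisymm h2 k1
    rw [a0]
    linear_combination -(z.ofLp 1 - n') * zpi
  · have a0 : z.ofLp 0 = m + 1 := le_antisymm h2 k1
    have a1 : z.ofLp 1 = n' + 1 := le_antisymm k4 h3
    rw [a0, a1]
    ring
  · have a1 : z.ofLp 1 = n + 1 := le_antisymm h4 k3
    rw [a1]
    linear_combination -(z.ofLp 0 - m') * zpi
  · ring
  · have a1 : z.ofLp 1 = n' + 1 := le_antisymm k4 h3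
    rw [a1]
    linear_combination (z.ofLp 0 - m') * zqi
  · have a0 : z.ofLp 0 = m' + 1 := le_antisymm k2 h1
    have a1 : z.ofLp 1 = n + 1 := le_antisymm h4 k3
    rw [a0, a1]
    ring
  · have a0 : z.ofLp 0 = m' + 1 := le_antisymm k2 h1
    rw [a0]
    linear_combination (z.ofLp 1 - n') * zqi
  · have a0 : z.ofLp 0 = m' + 1 := le_antisymm k2 h1
    have a1 : z.ofLp 1 = n' + 1 := le_antisymm k4 h3
    rw [a0, a1]
    linear_combination zqi

/-- The closed unit square in space with doubled centre `k`. -/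
def InSq (k : V3) (x : Space) : Prop :=
  ∀ i, (co k i : ℝ) - 1 ≤ 2 * x i ∧ 2 * x i ≤ co k i + 1 ∧ (Even (co k i) → 2 * x i = co k i)

theorem GoodCell.coord {g : ℤ × ℤ → V3} {p : ℤ × ℤ} (h : GoodCell g p) (i : Fin 3) :
    (co (g (cE p)) i = co (g p) i ∧ co (g (cN p)) i = co (g p) i) ∨
    (co (g (cE p)) i = co (g p) i + 1 ∧ co (g (cN p)) i = co (g p) i) ∨
    (co (g (cE p)) i = co (g p) i - 1 ∧ co (g (cN p)) i = co (g p) i) ∨
    (co (g (cE p)) i = co (g p) i ∧ co (g (cN p)) i = co (g p) i + 1) ∨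
    (co (g (cE p)) i = co (g p) i ∧ co (g (cN p)) i = co (g p) i - 1) := by
  have := units_coord _ h.u _ h.v h.ne h.ne' i
  rw [co_sub, co_sub] at this
  omega

theorem co_key {g : ℤ × ℤ → V3} {p : ℤ × ℤ} (h : GoodCell g p) (i : Fin 3) :
    co (key g p) i = co (g (cE p)) i + co (g (cN p)) i := by
  rw [key, co_add, h.zc i]; ring

theorem GoodCell.inSq {g : ℤ × ℤ → V3} {p : ℤ × ℤ} (h : GoodCell g p) {z : Plane}
    (hz : z ∈ cell p) : InSq (key g p) (aff g p z) := by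
  intro i
  obtain ⟨⟨h1, h2⟩, h3, h4⟩ := hz
  rw [co_key h, aff_apply]
  rcases h.coord i with ⟨a, b⟩ | ⟨a, b⟩ | ⟨a, b⟩ | ⟨a, b⟩ | ⟨a, b⟩ <;> rw [a, b] <;> push_cast
  · refine ⟨by linarith, by linarith, fun _ => by ring⟩
  · refine ⟨by linarith, by linarith, fun he => ?_⟩
    exfalso; rw [Int.even_iff] at he; omega
  · refine ⟨by linarith, by linarith, fun he => ?_⟩
    exfalso; rw [Int.even_iff] at he; omega
  · refine ⟨by linarith, by linarith, fun he => ?_⟩
    exfalso; rw [Int.even_iff] at he; omega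
  · refine ⟨by linarith, by linarith, fun he => ?_⟩
    exfalso; rw [Int.even_iff] at he; omega

/-- The doubled centre of the open unit square containing `x`. -/
noncomputable def ctr (x : Space) (i : Fin 3) : ℤ := ⌊x i⌋ + ⌈x i⌉

theorem floor_ceil_mid (n : ℤ) (y : ℝ) (h1 : (n : ℝ) < y) (h2 : y < n + 1) :
    ⌊y⌋ + ⌈y⌉ = 2 * n + 1 := by
  have a : ⌊y⌋ = n := by rw [Int.floor_eq_iff]; exact ⟨h1.le, h2⟩
  have b : ⌈y⌉ = n + 1 := by
    rw [Int.ceil_eq_iff]; push_cast; constructor <;> linarith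
  rw [a, b]; ring

theorem floor_ceil_int (n : ℤ) (y : ℝ) (h1 : y = n) : ⌊y⌋ + ⌈y⌉ = 2 * n := by
  rw [h1, Int.floor_intCast, Int.ceil_intCast]; ring

theorem GoodCell.ctr {g : ℤ × ℤ → V3} {p : ℤ × ℤ} (h : GoodCell g p) {z : Plane}
    (h1 : (p.1 : ℝ) < z 0) (h2 : z 0 < p.1 + 1) (h3 : (p.2 : ℝ) < z 1) (h4 : z 1 < p.2 + 1)
    (i : Fin 3) : ctr (aff g p z) i = co (key g p) i := by
  rw [Cube.ctr, co_key h, aff_apply]
  rcases h.coord i with ⟨a, b⟩ | ⟨a, b⟩ | ⟨a, b⟩ | ⟨a, b⟩ | ⟨a, b⟩ <;> rw [a, b]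
  · rw [floor_ceil_int (co (g p) i) _ (by ring)]; ring
  · rw [floor_ceil_mid (co (g p) i) _ (by push_cast; linarith) (by push_cast; linarith)]; ring
  · rw [floor_ceil_mid (co (g p) i - 1) _ (by push_cast; linarith) (by push_cast; linarith)]
    ring
  · rw [floor_ceil_mid (co (g p) i) _ (by push_cast; linarith) (by push_cast; linarith)]; ring
  · rw [floor_ceil_mid (co (g p) i - 1) _ (by push_cast; linarith) (by push_cast; linarith)]
    ring

theorem co_inj {u v : V3} (h : ∀ i, co u i = co v i) : u = v := by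
  obtain ⟨a, b, c⟩ := u
  obtain ⟨a', b', c'⟩ := v
  have h0 := h 0
  have h1 := h 1
  have h2 := h 2
  simp [co] at h0 h1 h2
  simp [h0, h1, h2]

theorem surj_aux (U V : V3) (hu : U ∈ units) (hv : V ∈ units) (hne : V ≠ U) (hne' : V ≠ -U)
    (o x : Fin 3 → ℝ)
    (h0 : ∀ i, co U i = 0 → co V i = 0 → x i = o i)
    (h1 : ∀ i, 2 * o i + co U i + co V i - 1 ≤ 2 * x i)
    (h2 : ∀ i, 2 * x i ≤ 2 * o i + co U i + co V i + 1) :
    ∃ α β : ℝ, (0 ≤ α ∧ α ≤ 1) ∧ (0 ≤ β ∧ β ≤ 1) ∧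
      ∀ i, x i = o i + α * co U i + β * co V i := by
  refine ⟨co U 0 * (x 0 - o 0) + co U 1 * (x 1 - o 1) + co U 2 * (x 2 - o 2),
    co V 0 * (x 0 - o 0) + co V 1 * (x 1 - o 1) + co V 2 * (x 2 - o 2), ?_⟩
  have a0 := h0 0
  have a1 := h0 1
  have a2 := h0 2
  have b0 := h1 0
  have b1 := h1 1
  have b2 := h1 2
  have c0 := h2 0
  have c1 := h2 1
  have c2 := h2 2
  clear h0 h1 h2
  rw [Fin.forall_fin_succ, Fin.forall_fin_two]
  simp only [units, List.mem_cons, List.not_mem_nil, or_false] at hu hv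
  rcases hu with rfl | rfl | rfl | rfl | rfl | rfl <;>
  rcases hv with rfl | rfl | rfl | rfl | rfl | rfl <;>
  first
  | exact absurd rfl hne
  | exact absurd rfl hne'
  | (simp [co] at a0 a1 a2 b0 b1 b2 c0 c1 c2 ⊢
     refine ⟨⟨?_, ?_⟩, ⟨?_, ?_⟩, ?_⟩ <;> linarith)

/-- every point of the unit square with key `key g p` is in the image of the cell -/
theorem GoodCell.surj {g : ℤ × ℤ → V3} {p : ℤ × ℤ} (h : GoodCell g p) {x : Space}
    (hx : InSq (key g p) x) : ∃ z ∈ cell p, aff g p z = x := by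
  have e : ∀ i, co (g (cE p)) i = co (g p) i + co (g (cE p) - g p) i := fun i => by
    rw [co_sub]; ring
  have e' : ∀ i, co (g (cN p)) i = co (g p) i + co (g (cN p) - g p) i := fun i => by
    rw [co_sub]; ring
  have k : ∀ i, co (key g p) i = 2 * co (g p) i + co (g (cE p) - g p) i
      + co (g (cN p) - g p) i := fun i => by rw [co_key h, e, e']; ring
  obtain ⟨α, β, ⟨a1, a2⟩, ⟨b1, b2⟩, hx'⟩ := surj_aux (g (cE p) - g p) (g (cN p) - g p) h.u h.v
    h.ne h.ne' (fun i => (co (g p) i : ℝ)) (fun i => x i)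
    (fun i hU hV => by
      have := (hx i).2.2 (by rw [k i, hU, hV]; exact ⟨co (g p) i, by ring⟩)
      rw [k i, hU, hV] at this
      push_cast at this
      linarith)
    (fun i => by
      have := (hx i).1
      rw [k i] at this
      push_cast at this
      linarith)
    (fun i => by
      have := (hx i).2.1
      rw [k i] at this
      push_cast at this
      linarith)
  refine ⟨WithLp.toLp 2 ![p.1 + α, p.2 + β], ?_, ?_⟩
  · simp only [cell, mem_ofPred_eq]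
    simp
    exact ⟨⟨a1, a2⟩, b1, b2⟩
  · ext i
    rw [aff_apply, hx' i, e, e']
    simp

end Pool.Agent.H55.Cube
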