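import Pool.Agent.H55.Cube.Fold

/-!
# From a vertex table to a folding of a polyomino onto a cube surface
-/

open MeasureTheory Set

namespace Pool.Agent.H55.Cube

/-! ### The surface of the cube -/

theorem frontier_cube (s : ℝ) (_hs : 0 < s) :
    cubeSurface s = {x | (∀ i, 0 ≤ x i ∧ x i ≤ s) ∧ ∃ j, x j = 0 ∨ x j = s} := by
  have hC : {x : Space | ∀ i, 0 ≤ x i ∧ x i ≤ s}
      = (PiLp.homeomorph 2 (fun _ : Fin 3 => ℝ)) ⁻¹' (Set.univ.pi fun _ => Icc 0 s) := by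
    ext x; simp [PiLp.homeomorph, WithLp.equiv, Pi.le_def, forall_and]
  have hcl : IsClosed {x : Space | ∀ i, 0 ≤ x i ∧ x i ≤ s} := by
    rw [hC]
    exact (isClosed_set_pi fun _ _ => isClosed_Icc).preimage (Homeomorph.continuous _)
  have hint : interior {x : Space | ∀ i, 0 ≤ x i ∧ x i ≤ s} = {x | ∀ i, 0 < x i ∧ x i < s} := by
    rw [hC, ← Homeomorph.preimage_interior, interior_pi_set Set.finite_univ]
    ext x; simp [PiLp.homeomorph, WithLp.equiv]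
  rw [cubeSurface, hcl.frontier_eq, hint]
  ext x
  simp only [mem_sdiff, mem_ofPred_eq]
  constructor
  · rintro ⟨h1, h2⟩
    refine ⟨h1, ?_⟩
    by_contra hcon
    push Not at hcon
    exact h2 fun i => ⟨lt_of_le_of_ne (h1 i).1 (Ne.symm (hcon i).1),
      lt_of_le_of_ne (h1 i).2 (hcon i).2⟩
  · rintro ⟨h1, j, hj⟩
    refine ⟨h1, fun h2 => ?_⟩
    rcases hj with hj | hj
    · have := (h2 j).1; rw [hj] at this; exact lt_irrefl _ this
    · have := (h2 j).2; rw [hj] at this; exact lt_irrefl _ this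

/-- the doubled centres of the unit squares of the surface of `[0,s]^3` -/
def keys (s : ℕ) : List V3 :=
  (List.range s).flatMap fun a => (List.range s).flatMap fun b =>
    [(0, 2 * (a : ℤ) + 1, 2 * (b : ℤ) + 1), (2 * (s : ℤ), 2 * (a : ℤ) + 1, 2 * (b : ℤ) + 1),
     (2 * (a : ℤ) + 1, 0, 2 * (b : ℤ) + 1), (2 * (a : ℤ) + 1, 2 * (s : ℤ), 2 * (b : ℤ) + 1),
     (2 * (a : ℤ) + 1, 2 * (b : ℤ) + 1, 0), (2 * (a : ℤ) + 1, 2 * (b : ℤ) + 1, 2 * (s : ℤ))]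

theorem mem_keys {s : ℕ} {k : V3} : k ∈ keys s ↔ ∃ a < s, ∃ b < s,
    k = (0, 2 * (a : ℤ) + 1, 2 * (b : ℤ) + 1) ∨ k = (2 * (s : ℤ), 2 * (a : ℤ) + 1, 2 * (b : ℤ) + 1)
    ∨ k = (2 * (a : ℤ) + 1, 0, 2 * (b : ℤ) + 1) ∨ k = (2 * (a : ℤ) + 1, 2 * (s : ℤ), 2 * (b : ℤ) + 1)
    ∨ k = (2 * (a : ℤ) + 1, 2 * (b : ℤ) + 1, 0) ∨ k = (2 * (a : ℤ) + 1, 2 * (b : ℤ) + 1, 2 * (s : ℤ))
    := by
  simp [keys]

theorem exists_floor (s : ℕ) (hs : 0 < s) (y : ℝ) (h0 : 0 ≤ y) (h1 : y ≤ s) :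
    ∃ a < s, (a : ℝ) ≤ y ∧ y ≤ a + 1 := by
  by_cases h : ⌊y⌋₊ < s
  · exact ⟨⌊y⌋₊, h, Nat.floor_le h0, (Nat.lt_floor_add_one y).le⟩
  · push Not at h
    have : (s : ℝ) ≤ y := (Nat.cast_le.2 h).trans (Nat.floor_le h0)
    have hy : y = s := le_antisymm h1 this
    refine ⟨s - 1, by omega, ?_, ?_⟩
    · rw [hy, Nat.cast_sub (by omega)]; simp
    · rw [hy, Nat.cast_sub (by omega)]; simp

theorem inSq_iff (a b c : ℤ) (x : Space) : InSq (a, b, c) x ↔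
    ((a : ℝ) - 1 ≤ 2 * x 0 ∧ 2 * x 0 ≤ a + 1 ∧ (Even a → 2 * x 0 = a)) ∧
    ((b : ℝ) - 1 ≤ 2 * x 1 ∧ 2 * x 1 ≤ b + 1 ∧ (Even b → 2 * x 1 = b)) ∧
    ((c : ℝ) - 1 ≤ 2 * x 2 ∧ 2 * x 2 ≤ c + 1 ∧ (Even c → 2 * x 2 = c)) := by
  rw [InSq, Fin.forall_fin_succ, Fin.forall_fin_two]
  simp [co]

theorem not_even_odd (a : ℕ) : ¬ Even (2 * (a : ℤ) + 1) := by
  rw [Int.not_even_iff_odd]; exact ⟨a, rfl⟩

theorem surface_iff (s : ℕ) (hs : 0 < s) (x : Space) :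
    x ∈ cubeSurface s ↔ ∃ k ∈ keys s, InSq k x := by
  have hs' : (0 : ℝ) < s := by exact_mod_cast hs
  rw [frontier_cube s hs']
  simp only [mem_ofPred_eq, mem_keys]
  constructor
  · rintro ⟨h, j, hj⟩
    obtain ⟨a0, ha0, p0, q0⟩ := exists_floor s hs (x 0) (h 0).1 (h 0).2
    obtain ⟨a1, ha1, p1, q1⟩ := exists_floor s hs (x 1) (h 1).1 (h 1).2
    obtain ⟨a2, ha2, p2, q2⟩ := exists_floor s hs (x 2) (h 2).1 (h 2).2
    have E : ∀ (a : ℕ) (P : Prop), Even (2 * (a : ℤ) + 1) → P :=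
      fun a P he => absurd he (not_even_odd a)
    fin_cases j
    · rcases hj with hj | hj <;> simp only [Fin.zero_eta, Fin.isValue] at hj
      · refine ⟨_, ⟨a1, ha1, a2, ha2, Or.inl rfl⟩, ?_⟩
        rw [inSq_iff]
        refine ⟨⟨?_, ?_, ?_⟩, ⟨?_, ?_, E _ _⟩, ⟨?_, ?_, E _ _⟩⟩ <;>
          first | (intro _; push_cast; linarith) | (push_cast; linarith)
      · refine ⟨_, ⟨a1, ha1, a2, ha2, Or.inr (Or.inl rfl)⟩, ?_⟩
        rw [inSq_iff]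
        refine ⟨⟨?_, ?_, ?_⟩, ⟨?_, ?_, E _ _⟩, ⟨?_, ?_, E _ _⟩⟩ <;>
          first | (intro _; push_cast; linarith) | (push_cast; linarith)
    · rcases hj with hj | hj <;> simp only [Fin.mk_one, Fin.isValue] at hj
      · refine ⟨_, ⟨a0, ha0, a2, ha2, Or.inr (Or.inr (Or.inl rfl))⟩, ?_⟩
        rw [inSq_iff]
        refine ⟨⟨?_, ?_, E _ _⟩, ⟨?_, ?_, ?_⟩, ⟨?_, ?_, E _ _⟩⟩ <;>
          first | (intro _; push_cast; linarith) | (push_cast; linarith)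
      · refine ⟨_, ⟨a0, ha0, a2, ha2, Or.inr (Or.inr (Or.inr (Or.inl rfl)))⟩, ?_⟩
        rw [inSq_iff]
        refine ⟨⟨?_, ?_, E _ _⟩, ⟨?_, ?_, ?_⟩, ⟨?_, ?_, E _ _⟩⟩ <;>
          first | (intro _; push_cast; linarith) | (push_cast; linarith)
    · rcases hj with hj | hj <;> simp only [Fin.reduceFinMk, Fin.isValue] at hj
      · refine ⟨_, ⟨a0, ha0, a1, ha1, Or.inr (Or.inr (Or.inr (Or.inr (Or.inl rfl))))⟩, ?_⟩
        rw [inSq_iff]
        refine ⟨⟨?_, ?_, E _ _⟩, ⟨?_, ?_, E _ _⟩, ⟨?_, ?_, ?_⟩⟩ <;>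
          first | (intro _; push_cast; linarith) | (push_cast; linarith)
      · refine ⟨_, ⟨a0, ha0, a1, ha1, Or.inr (Or.inr (Or.inr (Or.inr (Or.inr rfl))))⟩, ?_⟩
        rw [inSq_iff]
        refine ⟨⟨?_, ?_, E _ _⟩, ⟨?_, ?_, E _ _⟩, ⟨?_, ?_, ?_⟩⟩ <;>
          first | (intro _; push_cast; linarith) | (push_cast; linarith)
  · rintro ⟨k, ⟨a, ha, b, hb, hk⟩, hx⟩
    have ha' : (a : ℝ) + 1 ≤ s := by exact_mod_cast ha
    have hb' : (b : ℝ) + 1 ≤ s := by exact_mod_cast hb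
    have ha0 : (0 : ℝ) ≤ a := Nat.cast_nonneg a
    have hb0 : (0 : ℝ) ≤ b := Nat.cast_nonneg b
    rw [Fin.forall_fin_succ, Fin.forall_fin_two]
    simp only [Fin.isValue, Fin.succ_zero_eq_one, Fin.succ_one_eq_two]
    rcases hk with rfl | rfl | rfl | rfl | rfl | rfl <;> rw [inSq_iff] at hx <;>
      push_cast at hx
    · have e := hx.1.2.2 (by simp)
      refine ⟨⟨⟨?_, ?_⟩, ⟨?_, ?_⟩, ⟨?_, ?_⟩⟩, 0, Or.inl ?_⟩ <;> linarith [hx.2.1.1, hx.2.1.2.1, hx.2.2.1, hx.2.2.2.1]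
    · have e := hx.1.2.2 (by simp)
      refine ⟨⟨⟨?_, ?_⟩, ⟨?_, ?_⟩, ⟨?_, ?_⟩⟩, 0, Or.inr ?_⟩ <;> linarith [hx.2.1.1, hx.2.1.2.1, hx.2.2.1, hx.2.2.2.1]
    · have e := hx.2.1.2.2 (by simp)
      refine ⟨⟨⟨?_, ?_⟩, ⟨?_, ?_⟩, ⟨?_, ?_⟩⟩, 1, Or.inl ?_⟩ <;> linarith [hx.1.1, hx.1.2.1, hx.2.2.1, hx.2.2.2.1]
    · have e := hx.2.1.2.2 (by simp)
      refine ⟨⟨⟨?_, ?_⟩, ⟨?_, ?_⟩, ⟨?_, ?_⟩⟩, 1, Or.inr ?_⟩ <;> linarith [hx.1.1, hx.1.2.1, hx.2.2.1, hx.2.2.2.1]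
    · have e := hx.2.2.2.2 (by simp)
      refine ⟨⟨⟨?_, ?_⟩, ⟨?_, ?_⟩, ⟨?_, ?_⟩⟩, 2, Or.inl ?_⟩ <;> linarith [hx.1.1, hx.1.2.1, hx.2.1.1, hx.2.1.2.1]
    · have e := hx.2.2.2.2 (by simp)
      refine ⟨⟨⟨?_, ?_⟩, ⟨?_, ?_⟩, ⟨?_, ?_⟩⟩, 2, Or.inr ?_⟩ <;> linarith [hx.1.1, hx.1.2.1, hx.2.1.1, hx.2.1.2.1]

/-! ### The grid lines -/

/-- the union of the grid lines -/
def gridLines : Set Plane := {z | ∃ n : ℤ, z 0 = n ∨ z 1 = n}

theorem volume_line (i : Fin 2) (c : ℝ) : volume {z : Plane | z i = c} = 0 := by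
  have h := (PiLp.volume_preserving_ofLp (Fin 2)).measure_preimage
    (s := {f : Fin 2 → ℝ | f i = c})
    ((measurableSet_eq_fun (measurable_pi_apply i) measurable_const).nullMeasurableSet)
  rw [volume_pi, Measure.pi_hyperplane] at h
  exact h

theorem volume_gridLines : volume gridLines = 0 := by
  have : gridLines = ⋃ n : ℤ, ({z : Plane | z 0 = n} ∪ {z : Plane | z 1 = n}) := by
    ext z; simp [gridLines]
  rw [this, measure_iUnion_null_iff]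
  intro n
  rw [measure_union_null_iff]
  exact ⟨volume_line 0 n, volume_line 1 n⟩

theorem cell_isClosed (p : ℤ × ℤ) : IsClosed (cell p) := by
  have h0 : Continuous fun z : Plane => z 0 := by fun_prop
  have h1 : Continuous fun z : Plane => z 1 := by fun_prop
  exact ((isClosed_le continuous_const h0).inter (isClosed_le h0 continuous_const)).inter
    ((isClosed_le continuous_const h1).inter (isClosed_le h1 continuous_const))

theorem cell_inter_subset {p q : ℤ × ℤ} (h : p ≠ q) : cell p ∩ cell q ⊆ gridLines := by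
  obtain ⟨m, n⟩ := p
  obtain ⟨m', n'⟩ := q
  rintro z ⟨⟨⟨h1, h2⟩, h3, h4⟩, ⟨k1, k2⟩, k3, k4⟩
  simp only at h1 h2 h3 h4 k1 k2 k3 k4
  have e1 : m' ≤ m + 1 := by exact_mod_cast k1.trans h2
  have e2 : m ≤ m' + 1 := by exact_mod_cast h1.trans k2
  have e3 : n' ≤ n + 1 := by exact_mod_cast k3.trans h4
  have e4 : n ≤ n' + 1 := by exact_mod_cast h3.trans k4
  rcases (show m' = m + 1 ∨ m = m' + 1 ∨ n' = n + 1 ∨ n = n' + 1 by
    have : ¬ (m = m' ∧ n = n') := fun ⟨a, b⟩ => h (by rw [a, b])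
    omega) with rfl | rfl | rfl | rfl
  · exact ⟨m + 1, Or.inl (le_antisymm (by push_cast; exact h2) k1)⟩
  · exact ⟨m' + 1, Or.inl (le_antisymm (by push_cast; exact k2) h1)⟩
  · exact ⟨n + 1, Or.inr (le_antisymm (by push_cast; exact h4) k3)⟩
  · exact ⟨n' + 1, Or.inr (le_antisymm (by push_cast; exact k4) h3)⟩

/-! ### The folding map -/

open Classical in
/-- the map which is `aff g p` on the cell `p` -/
noncomputable def foldMap (g : ℤ × ℤ → V3) (F : Finset (ℤ × ℤ)) (z : Plane) : Space :=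
  if h : ∃ p ∈ F, z ∈ cell p then aff g h.choose z else 0

theorem foldMap_eq {g : ℤ × ℤ → V3} {F : Finset (ℤ × ℤ)} (hg : ∀ p ∈ F, GoodCell g p)
    {p : ℤ × ℤ} (hp : p ∈ F) {z : Plane} (hz : z ∈ cell p) : foldMap g F z = aff g p z := by
  have h : ∃ p ∈ F, z ∈ cell p := ⟨p, hp, hz⟩
  rw [foldMap, dif_pos h]
  exact aff_eq (hg _ h.choose_spec.1) (hg p hp) h.choose_spec.2 hz

theorem foldsInto_of (g : ℤ × ℤ → V3) (F : Finset (ℤ × ℤ)) (s : ℕ) (hs : 0 < s)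
    (hg : ∀ p ∈ F, GoodCell g p) (hkey : ∀ p ∈ F, key g p ∈ keys s)
    (hinj : ∀ p ∈ F, ∀ q ∈ F, key g p = key g q → p = q)
    (hsurj : ∀ k ∈ keys s, ∃ p ∈ F, key g p = k) :
    FoldsInto (region F) (cubeSurface s) := by
  refine ⟨foldMap g F, ?_, ?_, ?_, gridLines, volume_gridLines, ?_⟩
  · have : region F = ⋃ p : F, cell p := by
      ext z; simp [region]
    rw [this]
    apply LocallyFinite.continuousOn_iUnion (f := fun p : F => cell p.1)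
      (locallyFinite_of_finite _) (fun p => cell_isClosed p.1)
    intro p
    have hiso : ContinuousOn (aff g p.1) (cell p.1) := by
      have : Isometry (aff g p.1) := Isometry.of_dist_eq (hg p.1 p.2).dist
      exact this.continuous.continuousOn
    exact hiso.congr fun z hz => foldMap_eq hg p.2 hz
  · ext x
    rw [surface_iff s hs]
    constructor
    · rintro ⟨z, hz, rfl⟩
      obtain ⟨p, hp, hzp⟩ : ∃ p ∈ F, z ∈ cell p := by simpa [region] using hz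
      exact ⟨key g p, hkey p hp, by rw [foldMap_eq hg hp hzp]; exact (hg p hp).inSq hzp⟩
    · rintro ⟨k, hk, hx⟩
      obtain ⟨p, hp, rfl⟩ := hsurj k hk
      obtain ⟨z, hz, rfl⟩ := (hg p hp).surj hx
      exact ⟨z, mem_biUnion hp hz, foldMap_eq hg hp hz⟩
  · intro γ hγ hmaps
    apply eVariationOn_eq_of_cover (ι := F) (fun p => Icc 0 1 ∩ γ ⁻¹' cell p.1)
    · intro p
      exact hγ.preimage_isClosed_of_isClosed isClosed_Icc (cell_isClosed p.1)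
    · intro t ht
      obtain ⟨p, hp, hzp⟩ : ∃ p ∈ F, γ t ∈ cell p := by simpa [region] using hmaps ht
      exact mem_iUnion.2 ⟨⟨p, hp⟩, ht, hzp⟩
    · rintro p s ⟨-, hs'⟩ t ⟨-, ht'⟩
      simp only [Function.comp]
      rw [foldMap_eq hg p.2 hs', foldMap_eq hg p.2 ht', edist_dist, edist_dist,
        (hg p.1 p.2).dist]
  · rintro z ⟨hz, hzN⟩ w ⟨hw, hwN⟩ hzw
    have hopen : ∀ (z : Plane) (p : ℤ × ℤ), z ∈ cell p → z ∉ gridLines →
        ((p.1 : ℝ) < z 0 ∧ z 0 < p.1 + 1) ∧ ((p.2 : ℝ) < z 1 ∧ z 1 < p.2 + 1) := by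
      rintro z p ⟨⟨h1, h2⟩, h3, h4⟩ hN
      refine ⟨⟨lt_of_le_of_ne h1 ?_, lt_of_le_of_ne h2 ?_⟩,
        lt_of_le_of_ne h3 ?_, lt_of_le_of_ne h4 ?_⟩
      · exact fun h => hN ⟨p.1, Or.inl h.symm⟩
      · exact fun h => hN ⟨p.1 + 1, Or.inl (by push_cast; exact h)⟩
      · exact fun h => hN ⟨p.2, Or.inr h.symm⟩
      · exact fun h => hN ⟨p.2 + 1, Or.inr (by push_cast; exact h)⟩
    obtain ⟨p, hp, hzp⟩ : ∃ p ∈ F, z ∈ cell p := by simpa [region] using hz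
    obtain ⟨q, hq, hwq⟩ : ∃ q ∈ F, w ∈ cell q := by simpa [region] using hw
    rw [foldMap_eq hg hp hzp, foldMap_eq hg hq hwq] at hzw
    have hpq : p = q := by
      apply hinj p hp q hq
      apply co_inj
      intro i
      obtain ⟨⟨a1, a2⟩, a3, a4⟩ := hopen z p hzp hzN
      obtain ⟨⟨b1, b2⟩, b3, b4⟩ := hopen w q hwq hwN
      rw [← (hg p hp).ctr a1 a2 a3 a4 i, ← (hg q hq).ctr b1 b2 b3 b4 i, hzw]
    subst hpq
    have := (hg p hp).dist z w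
    rw [hzw, dist_self] at this
    exact dist_eq_zero.1 this.symm

end Pool.Agent.H55.Cube
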