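import Pool.Agent.H55.Cube.Conn

/-!
# Scaling by a positive integer
-/

open MeasureTheory Set
open scoped Pointwise

namespace Pool.Agent.H55.Cube

theorem eVariationOn_smul {E : Type*} [NormedAddCommGroup E] [NormedSpace ℝ E] (c : ℝ)
    (f : ℝ → E) (s : Set ℝ) :
    eVariationOn (fun t => c • f t) s = (‖c‖₊ : ENNReal) * eVariationOn f s := by
  unfold eVariationOn
  rw [ENNReal.mul_iSup]
  congr 1
  ext p
  rw [Finset.mul_sum]
  refine Finset.sum_congr rfl fun i _ => ?_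
  rw [edist_smul₀]
  rfl

theorem FoldsInto.smul {P : Set Plane} {C : Set Space} (h : FoldsInto P C) {c : ℝ}
    (hc : 0 < c) : FoldsInto (c • P) (c • C) := by
  obtain ⟨f, hf, himg, hlen, N, hN, hinj⟩ := h
  have hmem : ∀ z ∈ c • P, c⁻¹ • z ∈ P := fun z hz => (mem_smul_set_iff_inv_smul_mem₀ hc.ne' _ _).1 hz
  refine ⟨fun z => c • f (c⁻¹ • z), ?_, ?_, ?_, c • N, ?_, ?_⟩
  · have h1 : ContinuousOn (fun z : Plane => c⁻¹ • z) (c • P) := by fun_prop
    exact (hf.comp h1 hmem).const_smul c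
  · rw [← himg]
    ext x
    constructor
    · rintro ⟨z, hz, rfl⟩
      exact smul_mem_smul_set (mem_image_of_mem f (hmem z hz))
    · intro hx
      obtain ⟨y, ⟨z, hz, rfl⟩, rfl⟩ := hx
      refine ⟨c • z, smul_mem_smul_set hz, ?_⟩
      simp only
      rw [inv_smul_smul₀ hc.ne']
  · intro γ hγ hmaps
    have h1 : ContinuousOn (fun t => c⁻¹ • γ t) (Icc 0 1) := by fun_prop
    have h2 : MapsTo (fun t => c⁻¹ • γ t) (Icc 0 1) P := fun t ht => hmem _ (hmaps ht)
    have h3 := hlen _ h1 h2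
    have h4 : ((fun z => c • f (c⁻¹ • z)) ∘ γ) = fun t => c • (f ∘ fun t => c⁻¹ • γ t) t := rfl
    rw [h4, eVariationOn_smul, h3, eVariationOn_smul, ← mul_assoc, ← ENNReal.coe_mul,
      ← nnnorm_mul, mul_inv_cancel₀ hc.ne']
    simp
  · rw [Measure.addHaar_smul, hN, mul_zero]
  · rintro z ⟨hz, hzN⟩ w ⟨hw, hwN⟩ hzw
    simp only at hzw
    have h1 : f (c⁻¹ • z) = f (c⁻¹ • w) := smul_right_injective _ hc.ne' hzw
    have h2 : c⁻¹ • z = c⁻¹ • w := by
      apply hinj _ _ h1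
      · exact ⟨hmem z hz, fun h => hzN ((mem_smul_set_iff_inv_smul_mem₀ hc.ne' _ _).2 h)⟩
      · exact ⟨hmem w hw, fun h => hwN ((mem_smul_set_iff_inv_smul_mem₀ hc.ne' _ _).2 h)⟩
    exact smul_right_injective _ (inv_ne_zero hc.ne') h2

theorem smul_cubeSurface {c s : ℝ} (hc : 0 < c) (hs : 0 < s) :
    c • cubeSurface s = cubeSurface (c * s) := by
  rw [frontier_cube s hs, frontier_cube (c * s) (by positivity)]
  ext x
  rw [mem_smul_set_iff_inv_smul_mem₀ hc.ne']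
  simp only [mem_ofPred_eq, PiLp.smul_apply, smul_eq_mul]
  have e1 : ∀ y : ℝ, 0 ≤ c⁻¹ * y ↔ 0 ≤ y := fun y => by
    rw [← div_eq_inv_mul, le_div_iff₀ hc, zero_mul]
  have e2 : ∀ y : ℝ, c⁻¹ * y ≤ s ↔ y ≤ c * s := fun y => by
    rw [← div_eq_inv_mul, div_le_iff₀ hc, mul_comm]
  have e3 : ∀ y : ℝ, c⁻¹ * y = 0 ↔ y = 0 := fun y => by
    rw [← div_eq_inv_mul, div_eq_iff hc.ne', zero_mul]
  have e4 : ∀ y : ℝ, c⁻¹ * y = s ↔ y = c * s := fun y => by
    rw [← div_eq_inv_mul, div_eq_iff hc.ne', mul_comm]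
  simp only [e1, e2, e3, e4]

/-- the unit squares of the `d`-fold magnification -/
def scale (d : ℕ) (F : Finset (ℤ × ℤ)) : Finset (ℤ × ℤ) :=
  (F ×ˢ (Finset.range d ×ˢ Finset.range d)).image
    fun x => (d * x.1.1 + x.2.1, d * x.1.2 + x.2.2)

theorem card_scale {d : ℕ} (hd : 0 < d) (F : Finset (ℤ × ℤ)) :
    (scale d F).card = d ^ 2 * F.card := by
  rw [scale, Finset.card_image_of_injOn]
  · rw [Finset.card_product, Finset.card_product, Finset.card_range]; ring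
  · rintro ⟨⟨m, n⟩, a, b⟩ h ⟨⟨m', n'⟩, a', b'⟩ h' heq
    simp only [Finset.coe_product, Finset.coe_range, mem_prod, mem_Iio] at h h'
    simp only [Prod.mk.injEq] at heq
    obtain ⟨h1, h2⟩ := heq
    have hd' : (0 : ℤ) < d := by exact_mod_cast hd
    have key : ∀ (m m' : ℤ) (a a' : ℕ), a < d → a' < d → (d : ℤ) * m + a = d * m' + a' →
        m = m' ∧ a = a' := by
      intro m m' a a' ha ha' h
      have ha1 : (a : ℤ) < d := by exact_mod_cast ha
      have ha2 : (a' : ℤ) < d := by exact_mod_cast ha'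
      have hm : m = m' := by
        have e1 : ((d : ℤ) * m + a) / d = m := by
          rw [Int.add_comm, Int.add_mul_ediv_left _ _ hd'.ne',
            Int.ediv_eq_zero_of_lt (by positivity) ha1, zero_add]
        have e2 : ((d : ℤ) * m' + a') / d = m' := by
          rw [Int.add_comm, Int.add_mul_ediv_left _ _ hd'.ne',
            Int.ediv_eq_zero_of_lt (by positivity) ha2, zero_add]
        rw [← e1, ← e2, h]
      subst hm
      exact ⟨rfl, by omega⟩
    obtain ⟨rfl, rfl⟩ := key m m' a a' h.2.1 h'.2.1 h1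
    obtain ⟨rfl, rfl⟩ := key n n' b b' h.2.2 h'.2.2 h2
    rfl

theorem exists_sub (d : ℕ) (hd : 0 < d) (m : ℤ) (y : ℝ) (h1 : (d : ℝ) * m ≤ y)
    (h2 : y ≤ d * (m + 1)) : ∃ a < d, (d : ℝ) * m + a ≤ y ∧ y ≤ d * m + a + 1 := by
  obtain ⟨a, ha, h3, h4⟩ := exists_floor d hd (y - d * m) (by linarith) (by linarith)
  exact ⟨a, ha, by linarith, by linarith⟩

theorem smul_region {d : ℕ} (hd : 0 < d) (F : Finset (ℤ × ℤ)) :
    (d : ℝ) • region F = region (scale d F) := by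
  have hd' : (0 : ℝ) < d := by exact_mod_cast hd
  ext z
  rw [mem_smul_set_iff_inv_smul_mem₀ hd'.ne']
  simp only [region, scale, mem_iUnion, exists_prop, Finset.mem_image, Finset.mem_product,
    Finset.mem_range]
  have e1 : ∀ y x : ℝ, x ≤ (d : ℝ)⁻¹ * y ↔ d * x ≤ y := fun y x => by
    rw [← div_eq_inv_mul, le_div_iff₀ hd', mul_comm]
  have e2 : ∀ y x : ℝ, (d : ℝ)⁻¹ * y ≤ x ↔ y ≤ d * x := fun y x => by
    rw [← div_eq_inv_mul, div_le_iff₀ hd', mul_comm]
  constructor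
  · rintro ⟨p, hp, hz⟩
    simp only [cell, mem_ofPred_eq, PiLp.smul_apply, smul_eq_mul, e1, e2] at hz
    obtain ⟨⟨h1, h2⟩, h3, h4⟩ := hz
    obtain ⟨a, ha, a1, a2⟩ := exists_sub d hd p.1 _ h1 h2
    obtain ⟨b, hb, b1, b2⟩ := exists_sub d hd p.2 _ h3 h4
    refine ⟨_, ⟨(p, (a, b)), ⟨hp, ha, hb⟩, rfl⟩, ?_⟩
    simp only [cell, mem_ofPred_eq]
    push_cast
    exact ⟨⟨a1, a2⟩, b1, b2⟩
  · rintro ⟨q, ⟨⟨p, a, b⟩, ⟨hp, ha, hb⟩, rfl⟩, hz⟩
    simp only at hp ha hb
    refine ⟨p, hp, ?_⟩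
    simp only [cell, mem_ofPred_eq] at hz
    push_cast at hz
    obtain ⟨⟨h1, h2⟩, h3, h4⟩ := hz
    have ha' : (a : ℝ) + 1 ≤ d := by exact_mod_cast ha
    have hb' : (b : ℝ) + 1 ≤ d := by exact_mod_cast hb
    have ha0 : (0 : ℝ) ≤ a := Nat.cast_nonneg a
    have hb0 : (0 : ℝ) ≤ b := Nat.cast_nonneg b
    simp only [cell, mem_ofPred_eq, PiLp.smul_apply, smul_eq_mul, e1, e2]
    refine ⟨⟨?_, ?_⟩, ?_, ?_⟩ <;> linarith

theorem isConnected_interior_smul {P : Set Plane} (h : IsConnected (interior P)) {c : ℝ}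
    (hc : c ≠ 0) : IsConnected (interior (c • P)) := by
  rw [interior_smul₀ hc]
  exact h.image _ (by fun_prop)

theorem isPolyominoOfArea_smul {P : Set Plane} {n : ℕ} (h : IsPolyominoOfArea P n) {d : ℕ}
    (hd : 0 < d) : IsPolyominoOfArea ((d : ℝ) • P) (d ^ 2 * n) := by
  obtain ⟨F, rfl, rfl, h3⟩ := h
  refine ⟨scale d F, card_scale hd F, smul_region hd F, isConnected_interior_smul h3 ?_⟩
  exact_mod_cast hd.ne'

theorem region_union (F G : Finset (ℤ × ℤ)) : region (F ∪ G) = region F ∪ region G := by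
  ext z
  simp only [region, mem_iUnion, Finset.mem_union, mem_union, exists_prop]
  constructor
  · rintro ⟨p, hp | hp, hz⟩
    · exact Or.inl ⟨p, hp, hz⟩
    · exact Or.inr ⟨p, hp, hz⟩
  · rintro (⟨p, hp, hz⟩ | ⟨p, hp, hz⟩)
    · exact ⟨p, Or.inl hp, hz⟩
    · exact ⟨p, Or.inr hp, hz⟩

theorem disjoint_interior {F G : Finset (ℤ × ℤ)} (h : Disjoint F G) :
    Disjoint (interior (region F)) (interior (region G)) := by
  rw [Set.disjoint_iff_inter_eq_empty]
  apply (isOpen_interior.inter isOpen_interior).eq_empty_of_measure_zero (μ := volume)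
  apply measure_mono_null _ volume_gridLines
  rintro z ⟨hz1, hz2⟩
  obtain ⟨p, hp, hzp⟩ : ∃ p ∈ F, z ∈ cell p := by
    simpa only [region, mem_iUnion, exists_prop] using interior_subset hz1
  obtain ⟨q, hq, hzq⟩ : ∃ q ∈ G, z ∈ cell q := by
    simpa only [region, mem_iUnion, exists_prop] using interior_subset hz2
  have hpq : p ≠ q := by
    rintro rfl
    exact (Finset.disjoint_left.1 h hp hq)
  exact cell_inter_subset hpq ⟨hzp, hzq⟩

theorem disjoint_interior_smul {P Q : Set Plane} (h : Disjoint (interior P) (interior Q))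
    {c : ℝ} (hc : c ≠ 0) : Disjoint (interior (c • P)) (interior (c • Q)) := by
  rw [interior_smul₀ hc, interior_smul₀ hc]
  exact (disjoint_image_iff (smul_right_injective _ hc)).2 h

end Pool.Agent.H55.Cube
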